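import Mathlib
import Pool.Agent.FHC.Main
import Pool.Agent.FHC.Targets
import Pool.Agent.FHC.Visits

/-!
# A frequently hypercyclic operator whose direct sum with itself is not frequently hypercyclic

On the Banach space `ℓ¹` (real or complex scalars) there is a frequently hypercyclic operator `T` such
that `T ⊕ T` is not frequently hypercyclic; this answers the question of Bayart and Grivaux (2006)
in the negative.

Sketch. One constructs vectors `x n` (`n ∈ ℕ`), the orbit of `x = x 0`, and, for each `l`, a
`q l`-periodic orbit `X l m` (`m` modulo `q l`), which shadows `x` for `N l` steps. The space is the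
weighted `ℓ¹` space with basis vectors `x n - g n` and `X l m - [m < N l] x m`, where `g n` is the
target visited at the time `n` (a combination of periodic vectors), or `0` if the time is wild; the
weight is tiny at a visit and enormous at the wild times. The time axis is divided into zones; inside
the zone `k` the visits happen at times whose residues modulo `Q k` are in a sum-free set. If the
orbit of `y` returns to the unit ball with positive lower density then some return time `t` is small
compared to the next zone; as `t` has a phase of a visit (otherwise `T ^ t y` is large) and by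
sum-freeness, the whole content of the zone is moved to wild times by `T ^ t`, and this makes the
coordinates of `y` in the zone, and in the periodic blocks, decrease superexponentially fast (tame
vectors). For tame `y`, `z` the functional `Φ_z = ∑ wt_z(β) ζ ∘ T ^ pos β` is well defined, where `ζ`
is a functional with slowly growing values `ζ (x n)`, and `Φ_z (T ^ t y) - Φ_y (T ^ t z)` is bounded
in `t` because of a symmetry; so the orbit of `(y, z)` is not dense.
-/

open Filter TopologicalSpace

namespace Pool.Agent.Results.MP_6cc614_an.DirectSumNotFHC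

/-- The lower density `liminf_N #{n ≤ N : n ∈ A} / N` of a set of natural numbers. -/
noncomputable def lowerDensity (A : Set ℕ) : ℝ :=
  liminf (fun N : ℕ => (({n : ℕ | n ≤ N ∧ n ∈ A}.ncard : ℕ) : ℝ) / (N : ℝ)) atTop

/-- `x` is a frequently hypercyclic vector of `T`: for every nonempty open set `U` the set of the `n`
with `T ^ n x ∈ U` has positive lower density. -/
def IsFHCVector {X : Type*} [TopologicalSpace X] (T : X → X) (x : X) : Prop :=
  ∀ U : Set X, IsOpen U → U.Nonempty → 0 < lowerDensity {n : ℕ | T^[n] x ∈ U}

/-- `T` is frequently hypercyclic if it has a frequently hypercyclic vector. -/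
def FrequentlyHypercyclic {X : Type*} [TopologicalSpace X] (T : X → X) : Prop :=
  ∃ x : X, IsFHCVector T x

/-- `X` is complete, separable and infinite-dimensional and carries a frequently hypercyclic operator
`T` (continuous and linear) such that the operator `T ⊕ T : (x, y) ↦ (T x, T y)` on `X × X` is not
frequently hypercyclic. -/
def NegativeAnswer (𝕜 X : Type*) [RCLike 𝕜] [NormedAddCommGroup X] [NormedSpace 𝕜 X] : Prop :=
  CompleteSpace X ∧ SeparableSpace X ∧ ¬ FiniteDimensional 𝕜 X ∧ ∃ T : X →L[𝕜] X,
    FrequentlyHypercyclic T ∧ ¬ FrequentlyHypercyclic (T.prodMap T)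

/-- The question of Bayart and Grivaux has a negative answer on the Banach space `ℓ¹` over the real
or the complex field `𝕜`. -/
theorem result (𝕜 : Type*) [RCLike 𝕜] : NegativeAnswer 𝕜 (lp (fun _ : ℕ => 𝕜) 1) := by
  classical
  obtain ⟨P⟩ := Pool.Agent.FHC.exists_par
  obtain ⟨u, hu⟩ := Pool.Agent.FHC.exists_tg 𝕜 P
  obtain ⟨e⟩ : Nonempty (P.Idx ≃ ℕ) := nonempty_equiv_of_countable
  set B := Pool.Agent.FHC.wbLp (𝕜 := 𝕜) e P.cost P.cost_pos
  have h1 : Pool.Agent.FHC.IsFHCVector (Pool.Agent.FHC.TT B u) (Pool.Agent.FHC.xx B u 0) :=
    Pool.Agent.FHC.fhc_xx B u P.visits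
      (fun v ε hε => Pool.Agent.FHC.dense_targets B u hu v hε)
  have h2 := Pool.Agent.FHC.not_fhc_prod B u
  refine ⟨inferInstance, ?_, ?_, Pool.Agent.FHC.TT B u, ⟨_, h1⟩, h2⟩
  · apply SeparableSpace.of_denseRange
      (fun n : ℕ => (Pool.Agent.FHC.TT B u)^[n] (Pool.Agent.FHC.xx B u 0))
    rw [DenseRange, dense_iff_inter_open]
    intro U hU hne
    obtain ⟨δ, hδ, n₀, hn₀⟩ := Pool.Agent.FHC.exists_of_lowerDensity_pos (h1 U hU hne)
    by_contra hcon
    have h3 := hn₀ (max n₀ 1) (le_max_left _ _)
    have h4 : (0 : ℝ) < ((max n₀ 1 : ℕ) : ℝ) := by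
      have : 0 < max n₀ 1 := by omega
      exact_mod_cast this
    have h5 : (Finset.range (max n₀ 1)).filter (· ∈ {n : ℕ |
        (⇑(Pool.Agent.FHC.TT B u))^[n] (Pool.Agent.FHC.xx B u 0) ∈ U}) = ∅ := by
      apply Finset.filter_false_of_mem
      intro m _ hm
      exact hcon ⟨_, hm, ⟨m, rfl⟩⟩
    have h6 := mul_pos hδ h4
    have h7 : (((Finset.range (max n₀ 1)).filter (· ∈ {n : ℕ |
        (⇑(Pool.Agent.FHC.TT B u))^[n] (Pool.Agent.FHC.xx B u 0) ∈ U})).card : ℝ) ≤ 0 := by
      rw [h5]
      simp
    have h8 : δ * ((max n₀ 1 : ℕ) : ℝ) ≤ 0 := by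
      refine le_trans ?_ h7
      convert h3
    linarith
  · intro hfin
    have hli : LinearIndependent 𝕜 B.D := by
      rw [linearIndependent_iff']
      intro s g hg i hi
      have h3 := congrArg (B.co i) hg
      rw [map_sum, map_zero, Finset.sum_eq_single_of_mem i hi] at h3
      · simpa [B.co_self] using h3
      · intro j _ hji
        rw [map_smul, B.co_ne i j hji.symm, smul_zero]
    have := hli.finite_of_isNoetherian
    exact not_finite P.Idx

end Pool.Agent.Results.MP_6cc614_an.DirectSumNotFHC
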